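import Mathlib

/-!
# MP_0c03d4_ag, Q1: the weak combinatorial type `W` is realizable

We exhibit four lines and four smooth conics in the complex projective plane whose union has the
weak combinatorial type `W`: the four lines and conics form four members of a pencil of cubics, each
member being a smooth conic together with a line tangent to it.

Points of the projective plane are given by nonzero vectors of `ℂ³`; two vectors give the same point
when they are proportional.
-/

set_option autoImplicit false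

open MvPolynomial

namespace Pool.Agent.Results.MP_0c03d4_ag.RealizationOfW

/-- polynomials in three variables -/
abbrev Form := MvPolynomial (Fin 3) ℂ

/-- the gradient of `F` at `v` -/
noncomputable def grad (F : Form) (v : Fin 3 → ℂ) : Fin 3 → ℂ := fun i => eval v (pderiv i F)

/-- two vectors define the same point of the projective plane -/
def SamePoint (v w : Fin 3 → ℂ) : Prop := ∃ c : ℂ, c ≠ 0 ∧ w = c • v

/-- the curve `F = 0` is smooth -/
def IsSmooth (F : Form) : Prop := ∀ v, v ≠ 0 → eval v F = 0 → grad F v ≠ 0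

/-- the components: `Sum.inl i` is the line `L_{i+1}`, `Sum.inr i` is the conic `C_{i+1}` -/
def comp (L C : Fin 4 → Form) : Fin 4 ⊕ Fin 4 → Form := Sum.elim L C

/-- the components through the nine ordinary quadruple points, as prescribed by `W` -/
def inc : Fin 9 → Finset (Fin 4 ⊕ Fin 4) :=
  ![{Sum.inr 0, Sum.inr 1, Sum.inl 2, Sum.inl 3},
    {Sum.inr 0, Sum.inr 1, Sum.inr 2, Sum.inr 3},
    {Sum.inr 0, Sum.inr 1, Sum.inr 2, Sum.inr 3},
    {Sum.inr 0, Sum.inr 1, Sum.inr 2, Sum.inr 3},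
    {Sum.inl 0, Sum.inl 1, Sum.inr 2, Sum.inr 3},
    {Sum.inr 0, Sum.inl 1, Sum.inl 2, Sum.inr 3},
    {Sum.inr 0, Sum.inl 1, Sum.inr 2, Sum.inl 3},
    {Sum.inl 0, Sum.inr 1, Sum.inl 2, Sum.inr 3},
    {Sum.inl 0, Sum.inr 1, Sum.inr 2, Sum.inl 3}]

/-- the polynomial `F (v + t w)` in the variable `t` -/
noncomputable def restrict (F : Form) (v w : Fin 3 → ℂ) : Polynomial ℂ :=
  aeval (fun i => Polynomial.C (v i) + Polynomial.C (w i) * Polynomial.X) F

/-- the line `l` and the curve `F` have an `A₃` singularity at `v`: both are smooth there, and their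
intersection multiplicity is exactly two (the order of vanishing of `F` along the line `l` at `v`,
parametrised by `v + t w` with `w` another point of the line) -/
def IsA3 (l F : Form) (v : Fin 3 → ℂ) : Prop :=
  eval v l = 0 ∧ eval v F = 0 ∧ grad l v ≠ 0 ∧ grad F v ≠ 0 ∧
    ∀ w, eval w l = 0 → (∀ c : ℂ, w ≠ c • v) → (restrict F v w).rootMultiplicity 0 = 2

/-- The curve `f = 0` has the weak combinatorial type `W`: its components are the lines `L i` and the
conics `C i`, its singular points are the nine ordinary quadruple points `P j` and the four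
points `T i` of type `A₃`. -/
structure HasTypeW (f : Form) (L C : Fin 4 → Form) (P : Fin 9 → Fin 3 → ℂ)
    (T : Fin 4 → Fin 3 → ℂ) : Prop where
  /-- the components are four lines and four smooth conics, pairwise different -/
  lines : ∀ i, (L i).IsHomogeneous 1 ∧ L i ≠ 0
  conics : ∀ i, (C i).IsHomogeneous 2 ∧ IsSmooth (C i)
  distinct : ∀ k l, k ≠ l → ¬ Associated (comp L C k) (comp L C l)
  eq_prod : f = ∏ k, comp L C k
  /-- the thirteen points are pairwise different points of the plane -/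
  P_ne : ∀ j, P j ≠ 0
  T_ne : ∀ i, T i ≠ 0
  P_inj : ∀ j j', SamePoint (P j) (P j') → j = j'
  T_inj : ∀ i i', SamePoint (T i) (T i') → i = i'
  P_T : ∀ j i, ¬ SamePoint (P j) (T i)
  /-- they are exactly the singular points of the curve -/
  sing : ∀ v, v ≠ 0 → ((eval v f = 0 ∧ grad f v = 0) ↔
    (∃ j, SamePoint (P j) v) ∨ ∃ i, SamePoint (T i) v)
  /-- the components through `P j` are the four prescribed ones -/
  P_inc : ∀ j k, eval (P j) (comp L C k) = 0 ↔ k ∈ inc j
  /-- their branches at `P j` are smooth and pairwise transversal -/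
  P_ord : ∀ j, ∀ k ∈ inc j, ∀ l ∈ inc j, k ≠ l →
    LinearIndependent ℂ ![grad (comp L C k) (P j), grad (comp L C l) (P j)]
  /-- the components through `T i` are `L i` and `C i`, forming an `A₃` point -/
  T_inc : ∀ i k, eval (T i) (comp L C k) = 0 ↔ (k = Sum.inl i ∨ k = Sum.inr i)
  T_A3 : ∀ i, IsA3 (L i) (C i) (T i)

/-! ### General lemmas -/

theorem grad_mul (F G : Form) (v : Fin 3 → ℂ) :
    grad (F * G) v = eval v F • grad G v + eval v G • grad F v := by
  funext i
  simp only [grad, Derivation.leibniz, map_add, smul_eq_mul, map_mul, Pi.add_apply, Pi.smul_apply]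

/-- singular points of a union of smooth curves -/
theorem sing_iff {ι : Type*} [Fintype ι] [DecidableEq ι] (g : ι → Form) (v : Fin 3 → ℂ)
    (hs : ∀ k, eval v (g k) = 0 → grad (g k) v ≠ 0) :
    (eval v (∏ k, g k) = 0 ∧ grad (∏ k, g k) v = 0) ↔
      ∃ k l, k ≠ l ∧ eval v (g k) = 0 ∧ eval v (g l) = 0 := by
  constructor
  · rintro ⟨h0, h1⟩
    rw [map_prod, Finset.prod_eq_zero_iff] at h0
    obtain ⟨k, -, hk⟩ := h0
    by_contra hcon
    push Not at hcon
    have hR : eval v (∏ l ∈ Finset.univ.erase k, g l) ≠ 0 := by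
      rw [map_prod, Finset.prod_ne_zero_iff]
      intro l hl
      exact hcon k l (Finset.ne_of_mem_erase hl).symm hk
    rw [← Finset.mul_prod_erase Finset.univ g (Finset.mem_univ k), grad_mul, hk, zero_smul,
      zero_add] at h1
    exact (smul_ne_zero hR (hs k hk)) h1
  · rintro ⟨k, l, hkl, hk, hl⟩
    have hl' : eval v (∏ m ∈ Finset.univ.erase k, g m) = 0 := by
      rw [map_prod]
      exact Finset.prod_eq_zero (Finset.mem_erase.2 ⟨hkl.symm, Finset.mem_univ l⟩) hl
    rw [← Finset.mul_prod_erase Finset.univ g (Finset.mem_univ k), grad_mul, hk, hl', map_mul, hk,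
      zero_mul, zero_smul, zero_smul, add_zero]
    exact ⟨rfl, rfl⟩

/-- linear forms -/
noncomputable def lin (a : Fin 3 → ℂ) : Form := C (a 0) * X 0 + C (a 1) * X 1 + C (a 2) * X 2

/-- quadratic forms -/
noncomputable def quad (q : Fin 6 → ℂ) : Form :=
  C (q 0) * X 0 ^ 2 + C (q 1) * X 1 ^ 2 + C (q 2) * X 2 ^ 2 + C (q 3) * (X 0 * X 1) +
    C (q 4) * (X 0 * X 2) + C (q 5) * (X 1 * X 2)

theorem eval_lin (a v : Fin 3 → ℂ) : eval v (lin a) = a 0 * v 0 + a 1 * v 1 + a 2 * v 2 := by
  simp [lin]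

theorem eval_quad (q : Fin 6 → ℂ) (v : Fin 3 → ℂ) : eval v (quad q) =
    q 0 * v 0 ^ 2 + q 1 * v 1 ^ 2 + q 2 * v 2 ^ 2 + q 3 * (v 0 * v 1) + q 4 * (v 0 * v 2) +
      q 5 * (v 1 * v 2) := by
  simp [quad]

theorem grad_lin (a v : Fin 3 → ℂ) : grad (lin a) v = a := by
  funext i
  fin_cases i <;> simp [grad, lin, pderiv_X]

theorem grad_quad (q : Fin 6 → ℂ) (v : Fin 3 → ℂ) : grad (quad q) v =
    ![2 * q 0 * v 0 + q 3 * v 1 + q 4 * v 2, 2 * q 1 * v 1 + q 3 * v 0 + q 5 * v 2,
      2 * q 2 * v 2 + q 4 * v 0 + q 5 * v 1] := by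
  funext i
  fin_cases i <;> simp [grad, quad, pderiv_X, Derivation.leibniz,
    Derivation.leibniz_pow] <;> ring

theorem lin_homogeneous (a : Fin 3 → ℂ) : (lin a).IsHomogeneous 1 := by
  have h : ∀ i : Fin 3, (C (a i) * X i : Form).IsHomogeneous 1 := fun i => by
    simpa using (isHomogeneous_C (Fin 3) (a i)).mul (isHomogeneous_X ℂ i)
  exact ((h 0).add (h 1)).add (h 2)

theorem quad_homogeneous (q : Fin 6 → ℂ) : (quad q).IsHomogeneous 2 := by
  have h : ∀ (c : ℂ) (i j : Fin 3), (C c * (X i * X j) : Form).IsHomogeneous 2 := fun c i j => by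
    simpa using (isHomogeneous_C (Fin 3) c).mul ((isHomogeneous_X ℂ i).mul (isHomogeneous_X ℂ j))
  have h2 : ∀ (c : ℂ) (i : Fin 3), (C c * X i ^ 2 : Form).IsHomogeneous 2 := fun c i => by
    have := h c i i
    rwa [← sq] at this
  exact (((((h2 _ 0).add (h2 _ 1)).add (h2 _ 2)).add (h _ 0 1)).add (h _ 0 2)).add (h _ 1 2)

/-! ### The explicit curve, over the Gaussian integers -/

/-- coefficients of the lines -/
def lineG : Fin 4 → Fin 3 → GaussianInt :=
  ![![⟨1, 0⟩, ⟨0, 0⟩, ⟨0, 0⟩], ![⟨0, 0⟩, ⟨1, 0⟩, ⟨0, 0⟩], ![⟨0, 0⟩, ⟨0, 0⟩, ⟨1, 0⟩],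
    ![⟨-1, 0⟩, ⟨-1, 0⟩, ⟨-1, 0⟩]]

/-- coefficients of the conics: `x², y², z², xy, xz, yz` -/
def conicG : Fin 4 → Fin 6 → GaussianInt :=
  ![![⟨0, 0⟩, ⟨-1, 0⟩, ⟨-1, 0⟩, ⟨-1, 0⟩, ⟨-1, 0⟩, ⟨2, 0⟩],
    ![⟨0, -2⟩, ⟨0, 0⟩, ⟨1, 0⟩, ⟨0, -2⟩, ⟨-2, 2⟩, ⟨1, 0⟩],
    ![⟨0, 2⟩, ⟨1, 0⟩, ⟨0, 0⟩, ⟨-2, -2⟩, ⟨0, 2⟩, ⟨1, 0⟩],
    ![⟨0, 0⟩, ⟨0, 0⟩, ⟨0, 0⟩, ⟨3, 4⟩, ⟨3, -4⟩, ⟨-4, 0⟩]]

/-- the quadruple points -/
def PG : Fin 9 → Fin 3 → GaussianInt :=
  ![![⟨1, 0⟩, ⟨-1, 0⟩, ⟨0, 0⟩], ![⟨-2, 4⟩, ⟨-5, -5⟩, ⟨-3, 1⟩], ![⟨-1, 0⟩, ⟨-2, 1⟩, ⟨-2, -1⟩],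
    ![⟨-2, -4⟩, ⟨-3, -1⟩, ⟨-5, 5⟩], ![⟨0, 0⟩, ⟨0, 0⟩, ⟨1, 0⟩], ![⟨1, 0⟩, ⟨0, 0⟩, ⟨0, 0⟩],
    ![⟨1, 0⟩, ⟨0, 0⟩, ⟨-1, 0⟩], ![⟨0, 0⟩, ⟨1, 0⟩, ⟨0, 0⟩], ![⟨0, 0⟩, ⟨1, 0⟩, ⟨-1, 0⟩]]

/-- the points of tangency -/
def TG : Fin 4 → Fin 3 → GaussianInt :=
  ![![⟨0, 0⟩, ⟨1, 0⟩, ⟨1, 0⟩], ![⟨0, 1⟩, ⟨0, 0⟩, ⟨1, 1⟩], ![⟨1, 0⟩, ⟨1, 1⟩, ⟨0, 0⟩],
    ![⟨-2, 0⟩, ⟨1, 2⟩, ⟨1, -2⟩]]

/-- values of the components -/
def evG (k : Fin 4 ⊕ Fin 4) (v : Fin 3 → GaussianInt) : GaussianInt :=
  match k with
  | Sum.inl i => lineG i 0 * v 0 + lineG i 1 * v 1 + lineG i 2 * v 2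
  | Sum.inr i => conicG i 0 * v 0 ^ 2 + conicG i 1 * v 1 ^ 2 + conicG i 2 * v 2 ^ 2 +
      conicG i 3 * (v 0 * v 1) + conicG i 4 * (v 0 * v 2) + conicG i 5 * (v 1 * v 2)

/-- gradients of the components -/
def grG (k : Fin 4 ⊕ Fin 4) (v : Fin 3 → GaussianInt) : Fin 3 → GaussianInt :=
  match k with
  | Sum.inl i => lineG i
  | Sum.inr i => ![2 * conicG i 0 * v 0 + conicG i 3 * v 1 + conicG i 4 * v 2,
      2 * conicG i 1 * v 1 + conicG i 3 * v 0 + conicG i 5 * v 2,
      2 * conicG i 2 * v 2 + conicG i 4 * v 0 + conicG i 5 * v 1]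

/-- two vectors are not proportional: some minor is nonzero -/
def indG (a b : Fin 3 → GaussianInt) : Prop :=
  a 1 * b 2 - a 2 * b 1 ≠ 0 ∨ a 2 * b 0 - a 0 * b 2 ≠ 0 ∨ a 0 * b 1 - a 1 * b 0 ≠ 0

instance (a b : Fin 3 → GaussianInt) : Decidable (indG a b) := by unfold indG; infer_instance

theorem P_incG : ∀ j k, evG k (PG j) = 0 ↔ k ∈ inc j := by decide

theorem P_ordG : ∀ j, ∀ k ∈ inc j, ∀ l ∈ inc j, k ≠ l → indG (grG k (PG j)) (grG l (PG j)) := by
  decide

theorem P_injG : ∀ j j', j ≠ j' → indG (PG j) (PG j') := by decide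

theorem T_incG : ∀ i k, evG k (TG i) = 0 ↔ (k = Sum.inl i ∨ k = Sum.inr i) := by decide

theorem T_injG : ∀ i i', i ≠ i' → indG (TG i) (TG i') := by decide

theorem P_TG : ∀ j i, indG (PG j) (TG i) := by decide

theorem T_grG : ∀ i, grG (Sum.inr i) (TG i) ≠ 0 := by decide

/-- half of the Hessian of the conics -/
def hessG (i : Fin 4) : Matrix (Fin 3) (Fin 3) GaussianInt :=
  !![2 * conicG i 0, conicG i 3, conicG i 4; conicG i 3, 2 * conicG i 1, conicG i 5;
    conicG i 4, conicG i 5, 2 * conicG i 2]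

theorem det_hessG : ∀ i, (hessG i).det ≠ 0 := by
  intro i
  rw [Matrix.det_fin_three]
  revert i
  decide

/-! ### Transfer to the complex numbers -/

/-- the embedding of the Gaussian integers -/
noncomputable abbrev phi : GaussianInt →+* ℂ := GaussianInt.toComplex

theorem phi_two : phi 2 = 2 := map_ofNat phi 2

theorem phi_inj : Function.Injective phi := by
  intro a b h
  exact GaussianInt.toComplex_injective h

/-- the lines -/
noncomputable def Ls (i : Fin 4) : Form := lin fun t => phi (lineG i t)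

/-- the conics -/
noncomputable def Cs (i : Fin 4) : Form := quad fun t => phi (conicG i t)

theorem ev_phi (k : Fin 4 ⊕ Fin 4) (v : Fin 3 → GaussianInt) :
    eval (fun t => phi (v t)) (comp Ls Cs k) = phi (evG k v) := by
  rcases k with i | i
  · simp only [comp, Sum.elim_inl, Ls, eval_lin, evG, map_add, map_mul]
  · simp only [comp, Sum.elim_inr, Cs, eval_quad, evG, map_add, map_mul, map_pow]

theorem gr_phi (k : Fin 4 ⊕ Fin 4) (v : Fin 3 → GaussianInt) :
    grad (comp Ls Cs k) (fun t => phi (v t)) = fun t => phi (grG k v t) := by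
  rcases k with i | i
  · simp only [comp, Sum.elim_inl, Ls, grad_lin, grG]
  · simp only [comp, Sum.elim_inr, Cs, grad_quad, grG]
    funext t
    fin_cases t <;> simp [phi_two]

theorem ind_phi (a b : Fin 3 → GaussianInt) (h : indG a b) (s t : ℂ)
    (hst : ∀ i, s * phi (a i) + t * phi (b i) = 0) : s = 0 ∧ t = 0 := by
  have key : ∀ i j, phi (a i * b j - a j * b i) ≠ 0 → s = 0 ∧ t = 0 := by
    intro i j hij
    have e1 : phi (a i * b j - a j * b i) = phi (a i) * phi (b j) - phi (a j) * phi (b i) := by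
      simp only [map_sub, map_mul]
    rw [e1] at hij
    have h1 := hst i
    have h2 := hst j
    constructor
    · have : s * (phi (a i) * phi (b j) - phi (a j) * phi (b i)) = 0 := by
        linear_combination phi (b j) * h1 - phi (b i) * h2
      exact (mul_eq_zero.1 this).resolve_right hij
    · have : t * (phi (a i) * phi (b j) - phi (a j) * phi (b i)) = 0 := by
        linear_combination phi (a i) * h2 - phi (a j) * h1
      exact (mul_eq_zero.1 this).resolve_right hij
  have hne : ∀ z : GaussianInt, z ≠ 0 → phi z ≠ 0 := fun z hz h0 =>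
    hz (phi_inj (by rw [h0, map_zero]))
  rcases h with h | h | h
  · exact key 1 2 (hne _ h)
  · exact key 2 0 (hne _ h)
  · exact key 0 1 (hne _ h)

theorem not_same (a b : Fin 3 → GaussianInt) (h : indG a b) :
    ¬ SamePoint (fun t => phi (a t)) (fun t => phi (b t)) := by
  rintro ⟨c, -, hw⟩
  have := ind_phi a b h c (-1) (fun i => by
    have h1 := congrFun hw i
    simp only [Pi.smul_apply, smul_eq_mul] at h1
    rw [h1]; ring)
  exact one_ne_zero (neg_eq_zero.1 this.2)

theorem smooth_line (i : Fin 4) (v : Fin 3 → ℂ) : grad (Ls i) v ≠ 0 := by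
  rw [Ls, grad_lin]
  intro h
  have h1 : ∀ i, lineG i ≠ 0 := by decide
  apply h1 i
  funext t
  have := congrFun h t
  exact phi_inj (by simpa using this)

theorem smooth_conic (i : Fin 4) (v : Fin 3 → ℂ) (hv : v ≠ 0) : grad (Cs i) v ≠ 0 := by
  intro h
  apply hv
  have hdet : (phi.mapMatrix (hessG i)).det ≠ 0 := by
    rw [← RingHom.map_det]
    intro h0
    exact det_hessG i (phi_inj (by rw [h0, map_zero]))
  apply Matrix.eq_zero_of_mulVec_eq_zero hdet
  rw [← h, Cs, grad_quad]
  funext t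
  fin_cases t <;> simp [Matrix.mulVec, dotProduct, Fin.sum_univ_three, hessG, phi_two] <;> ring

theorem vals (v : Fin 3 → ℂ) :
    eval v (comp Ls Cs (Sum.inl 0)) = v 0 ∧ eval v (comp Ls Cs (Sum.inl 1)) = v 1 ∧
    eval v (comp Ls Cs (Sum.inl 2)) = v 2 ∧
    eval v (comp Ls Cs (Sum.inl 3)) = - v 0 - v 1 - v 2 ∧
    eval v (comp Ls Cs (Sum.inr 0)) =
      - v 1 ^ 2 - v 2 ^ 2 - v 0 * v 1 - v 0 * v 2 + 2 * v 1 * v 2 ∧
    eval v (comp Ls Cs (Sum.inr 1)) = - 2 * Complex.I * v 0 ^ 2 + v 2 ^ 2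
      - 2 * Complex.I * v 0 * v 1 + (-2 + 2 * Complex.I) * v 0 * v 2 + v 1 * v 2 ∧
    eval v (comp Ls Cs (Sum.inr 2)) = 2 * Complex.I * v 0 ^ 2 + v 1 ^ 2
      + (-2 - 2 * Complex.I) * v 0 * v 1 + 2 * Complex.I * v 0 * v 2 + v 1 * v 2 ∧
    eval v (comp Ls Cs (Sum.inr 3)) = (3 + 4 * Complex.I) * v 0 * v 1
      + (3 - 4 * Complex.I) * v 0 * v 2 - 4 * v 1 * v 2 := by
  simp only [comp, Sum.elim_inl, Sum.elim_inr, Ls, Cs, eval_lin, eval_quad]
  refine ⟨?_, ?_, ?_, ?_, ?_, ?_, ?_, ?_⟩ <;>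
    simp [lineG, conicG, GaussianInt.toComplex_def'] <;> ring

/-- the quadruple points -/
noncomputable def Ps (j : Fin 9) : Fin 3 → ℂ := fun t => phi (PG j t)

/-- the tangency points -/
noncomputable def Ts (i : Fin 4) : Fin 3 → ℂ := fun t => phi (TG i t)

theorem ne1 : (2 * Complex.I : ℂ) ≠ 0 := by norm_num [Complex.ext_iff]
theorem ne2 : (3 - 4 * Complex.I : ℂ) ≠ 0 := by norm_num [Complex.ext_iff]
theorem ne3 : (3 + 4 * Complex.I : ℂ) ≠ 0 := by norm_num [Complex.ext_iff]

/-- two different members of the pencil vanish: all members vanish -/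
theorem members (M : Fin 4 → ℂ) (h2 : M 2 = M 1 - 2 * Complex.I * M 0)
    (h3 : M 3 = 4 * M 1 + (3 - 4 * Complex.I) * M 0) (i j : Fin 4) (hij : i ≠ j)
    (hi : M i = 0) (hj : M j = 0) : ∀ k, M k = 0 := by
  have key : M 0 = 0 ∧ M 1 = 0 := by
    have main : ∀ i j : Fin 4, i < j → M i = 0 → M j = 0 → M 0 = 0 ∧ M 1 = 0 := by
      intro i j hij hi hj
      fin_cases i <;> fin_cases j <;>
        first
        | (exfalso; revert hij; decide)
        | skip
      · exact ⟨hi, hj⟩
      · have a : M 0 = 0 := hi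
        have b : M 2 = 0 := hj
        exact ⟨a, by linear_combination b - h2 + 2 * Complex.I * a⟩
      · have a : M 0 = 0 := hi
        have b : M 3 = 0 := hj
        exact ⟨a, by linear_combination (b - h3 - (3 - 4 * Complex.I) * a) / 4⟩
      · have a : M 1 = 0 := hi
        have b : M 2 = 0 := hj
        refine ⟨?_, a⟩
        have : 2 * Complex.I * M 0 = 0 := by linear_combination a - b + h2
        exact (mul_eq_zero.1 this).resolve_left ne1
      · have a : M 1 = 0 := hi
        have b : M 3 = 0 := hj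
        refine ⟨?_, a⟩
        have : (3 - 4 * Complex.I) * M 0 = 0 := by linear_combination b - h3 - 4 * a
        exact (mul_eq_zero.1 this).resolve_left ne2
      · have a : M 2 = 0 := hi
        have b : M 3 = 0 := hj
        have h0 : M 0 = 0 := by
          have : (3 + 4 * Complex.I) * M 0 = 0 := by linear_combination b - h3 - 4 * a + 4 * h2
          exact (mul_eq_zero.1 this).resolve_left ne3
        exact ⟨h0, by linear_combination a - h2 + 2 * Complex.I * h0⟩
    rcases lt_or_gt_of_ne hij with h | h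
    · exact main i j h hi hj
    · exact main j i h hj hi
  obtain ⟨h0, h1⟩ := key
  intro k
  fin_cases k
  · exact h0
  · exact h1
  · show M 2 = 0
    rw [h2, h0, h1]; ring
  · show M 3 = 0
    rw [h3, h0, h1]; ring

theorem same_mk (a : Fin 3 → GaussianInt) (v : Fin 3 → ℂ) (hv : v ≠ 0) (c : ℂ)
    (h0 : v 0 = c * phi (a 0)) (h1 : v 1 = c * phi (a 1)) (h2 : v 2 = c * phi (a 2)) :
    SamePoint (fun t => phi (a t)) v := by
  refine ⟨c, ?_, ?_⟩
  · rintro rfl
    apply hv
    funext t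
    fin_cases t
    · simpa using h0
    · simpa using h1
    · simpa using h2
  · funext t
    fin_cases t
    · exact h0
    · exact h1
    · exact h2

/-- the base points of the pencil -/
theorem base_points (v : Fin 3 → ℂ) (hv : v ≠ 0)
    (h : ∀ k : Fin 4, eval v (comp Ls Cs (Sum.inl k)) * eval v (comp Ls Cs (Sum.inr k)) = 0) :
    ∃ j, SamePoint (Ps j) v := by
  obtain ⟨l0, l1, l2, l3, c0, c1, c2, c3⟩ := vals v
  have m0 := h 0
  have m1 := h 1
  have m2 := h 2
  have m3 := h 3
  rw [l0, c0] at m0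
  rw [l1, c1] at m1
  rw [l2, c2] at m2
  rw [l3, c3] at m3
  obtain ⟨x, hx⟩ : ∃ x, x = v 0 := ⟨_, rfl⟩
  obtain ⟨y, hy⟩ : ∃ y, y = v 1 := ⟨_, rfl⟩
  obtain ⟨z, hz⟩ : ∃ z, z = v 2 := ⟨_, rfl⟩
  rw [← hx, ← hy, ← hz] at m0 m1 m2 m3
  have mk : ∀ j : Fin 9, ∀ c : ℂ, x = c * phi (PG j 0) → y = c * phi (PG j 1) →
      z = c * phi (PG j 2) → ∃ j, SamePoint (Ps j) v := by
    intro j c e0 e1 e2
    exact ⟨j, same_mk (PG j) v hv c (by rw [← hx, e0]) (by rw [← hy, e1]) (by rw [← hz, e2])⟩
  by_cases x0 : x = 0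
  · by_cases y0 : y = 0
    · exact mk 4 z (by simp [PG, x0, GaussianInt.toComplex_def'])
        (by simp [PG, y0, GaussianInt.toComplex_def']) (by simp [PG, GaussianInt.toComplex_def'])
    by_cases z0 : z = 0
    · exact mk 7 y (by simp [PG, x0, GaussianInt.toComplex_def'])
        (by simp [PG, GaussianInt.toComplex_def']) (by simp [PG, z0, GaussianInt.toComplex_def'])
    have w0 : z = - y := by
      rw [x0] at m1
      have : y * z * (z + y) = 0 := by linear_combination m1
      rcases mul_eq_zero.1 this with h1 | h1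
      · exact absurd h1 (mul_ne_zero y0 z0)
      · linear_combination h1
    exact mk 8 y (by simp [PG, x0, GaussianInt.toComplex_def'])
        (by simp [PG, GaussianInt.toComplex_def']) (by simp [PG, w0, GaussianInt.toComplex_def'])
  have d0 : - y ^ 2 - z ^ 2 - x * y - x * z + 2 * y * z = 0 := (mul_eq_zero.1 m0).resolve_left x0
  by_cases y0 : y = 0
  · by_cases z0 : z = 0
    · exact mk 5 x (by simp [PG, GaussianInt.toComplex_def'])
        (by simp [PG, y0, GaussianInt.toComplex_def']) (by simp [PG, z0, GaussianInt.toComplex_def'])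
    have w0 : z = - x := by
      rw [y0] at d0
      have : z * (z + x) = 0 := by linear_combination -d0
      rcases mul_eq_zero.1 this with h1 | h1
      · exact absurd h1 z0
      · linear_combination h1
    exact mk 6 x (by simp [PG, GaussianInt.toComplex_def'])
        (by simp [PG, y0, GaussianInt.toComplex_def']) (by simp [PG, w0, GaussianInt.toComplex_def'])
  have d1 := (mul_eq_zero.1 m1).resolve_left y0
  by_cases z0 : z = 0
  · have w0 : y = - x := by
      rw [z0] at d0
      have : y * (y + x) = 0 := by linear_combination -d0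
      rcases mul_eq_zero.1 this with h1 | h1
      · exact absurd h1 y0
      · linear_combination h1
    exact mk 0 x (by simp [PG, GaussianInt.toComplex_def'])
        (by simp [PG, w0, GaussianInt.toComplex_def']) (by simp [PG, z0, GaussianInt.toComplex_def'])
  obtain ⟨w, hw⟩ : ∃ w, w = - x - y - z := ⟨_, rfl⟩
  have hxw : x = - w - y - z := by rw [hw]; ring
  have A : y * (w + 4 * z) = - (z * w) := by
    rw [hxw] at d0
    linear_combination d0
  have B : x * (2 * Complex.I * w + (-3 + 4 * Complex.I) * z) = z * w := by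
    rw [hw]
    linear_combination d1
  have hcub : 2 * Complex.I * ((w + (3 + Complex.I) * z) * (w + (2 - Complex.I) * z) *
      (w + (1 + Complex.I) * z)) = 0 := by
    have h1 : x + y + z + w = 0 := by rw [hw]; ring
    linear_combination (w + 4 * z) * (2 * Complex.I * w + (-3 + 4 * Complex.I) * z) * h1
      - (w + 4 * z) * B - (2 * Complex.I * w + (-3 + 4 * Complex.I) * z) * A
      + (-2 * Complex.I ^ 2 * z ^ 3 - 2 * Complex.I * z ^ 2 * w - 4 * Complex.I * z ^ 3
        + 8 * z ^ 2 * w + 12 * z ^ 3 + 2 * z * w ^ 2) * Complex.I_sq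
  rcases mul_eq_zero.1 ((mul_eq_zero.1 hcub).resolve_left ne1) with h1 | h1
  · rcases mul_eq_zero.1 h1 with h2 | h2
    · -- w = -(3+i) z : the point P 1 = (-2+4i, -5-5i, -3+i)
      have hwz : w = - (3 + Complex.I) * z := by linear_combination h2
      have hy' : (1 - Complex.I) * y = (3 + Complex.I) * z := by
        rw [hwz] at A
        have : z * ((1 - Complex.I) * y - (3 + Complex.I) * z) = 0 := by linear_combination A
        have := (mul_eq_zero.1 this).resolve_left z0
        linear_combination this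
      have hyz : y = (1 + 2 * Complex.I) * z := by
        linear_combination (1 + Complex.I) / 2 * hy' + (y + z) / 2 * Complex.I_sq
      have hxz : x = (1 - Complex.I) * z := by linear_combination hxw - hwz - hyz
      have e0 : phi (PG 1 0) = -2 + 4 * Complex.I := by simp [PG, GaussianInt.toComplex_def']
      have e1 : phi (PG 1 1) = -5 - 5 * Complex.I := by
        simp [PG, GaussianInt.toComplex_def']; ring
      have e2 : phi (PG 1 2) = -3 + Complex.I := by simp [PG, GaussianInt.toComplex_def']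
      refine mk 1 (- (3 + Complex.I) / 10 * z) ?_ ?_ ?_
      · rw [e0]
        linear_combination hxz + 4 / 10 * z * Complex.I_sq
      · rw [e1]
        linear_combination hyz - 1 / 2 * z * Complex.I_sq
      · rw [e2]
        linear_combination 1 / 10 * z * Complex.I_sq
    · -- w = (-2+i) z : the point P 2 = (-1, -2+i, -2-i)
      have hwz : w = - (2 - Complex.I) * z := by linear_combination h2
      have hy' : (2 + Complex.I) * y = (2 - Complex.I) * z := by
        rw [hwz] at A
        have : z * ((2 + Complex.I) * y - (2 - Complex.I) * z) = 0 := by linear_combination A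
        have := (mul_eq_zero.1 this).resolve_left z0
        linear_combination this
      have hyz : y = (3 - 4 * Complex.I) / 5 * z := by
        linear_combination (2 - Complex.I) / 5 * hy' + (y + z) / 5 * Complex.I_sq
      have hxz : x = (2 - Complex.I) / 5 * z := by linear_combination hxw - hwz - hyz
      have e0 : phi (PG 2 0) = -1 := by simp [PG, GaussianInt.toComplex_def']
      have e1 : phi (PG 2 1) = -2 + Complex.I := by simp [PG, GaussianInt.toComplex_def']
      have e2 : phi (PG 2 2) = -2 - Complex.I := by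
        simp [PG, GaussianInt.toComplex_def']; ring
      refine mk 2 (- (2 - Complex.I) / 5 * z) ?_ ?_ ?_
      · rw [e0]
        linear_combination hxz
      · rw [e1]
        linear_combination hyz - 1 / 5 * z * Complex.I_sq
      · rw [e2]
        linear_combination 1 / 5 * z * Complex.I_sq
  · -- w = -(1+i) z : the point P 3 = (-2-4i, -3-i, -5+5i)
    have hwz : w = - (1 + Complex.I) * z := by linear_combination h1
    have hy' : (3 - Complex.I) * y = (1 + Complex.I) * z := by
      rw [hwz] at A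
      have : z * ((3 - Complex.I) * y - (1 + Complex.I) * z) = 0 := by linear_combination A
      have := (mul_eq_zero.1 this).resolve_left z0
      linear_combination this
    have hyz : y = (1 + 2 * Complex.I) / 5 * z := by
      linear_combination (3 + Complex.I) / 10 * hy' + (y + z) / 10 * Complex.I_sq
    have hxz : x = (-1 + 3 * Complex.I) / 5 * z := by linear_combination hxw - hwz - hyz
    have e0 : phi (PG 3 0) = -2 - 4 * Complex.I := by
      simp [PG, GaussianInt.toComplex_def']; ring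
    have e1 : phi (PG 3 1) = -3 - Complex.I := by
      simp [PG, GaussianInt.toComplex_def']; ring
    have e2 : phi (PG 3 2) = -5 + 5 * Complex.I := by simp [PG, GaussianInt.toComplex_def']
    refine mk 3 (- (1 + Complex.I) / 10 * z) ?_ ?_ ?_
    · rw [e0]
      linear_combination hxz - 4 / 10 * z * Complex.I_sq
    · rw [e1]
      linear_combination hyz - 1 / 10 * z * Complex.I_sq
    · rw [e2]
      linear_combination 5 / 10 * z * Complex.I_sq

/-- a line and the conic of the same member of the pencil meet in the point of tangency only -/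
theorem tangency (v : Fin 3 → ℂ) (hv : v ≠ 0) (i : Fin 4)
    (hl : eval v (comp Ls Cs (Sum.inl i)) = 0) (hc : eval v (comp Ls Cs (Sum.inr i)) = 0) :
    SamePoint (Ts i) v := by
  obtain ⟨l0, l1, l2, l3, c0, c1, c2, c3⟩ := vals v
  obtain ⟨x, hx⟩ : ∃ x, x = v 0 := ⟨_, rfl⟩
  obtain ⟨y, hy⟩ : ∃ y, y = v 1 := ⟨_, rfl⟩
  obtain ⟨z, hz⟩ : ∃ z, z = v 2 := ⟨_, rfl⟩
  rw [← hx] at l0 l3 c0 c1 c2 c3
  rw [← hy] at l1 l3 c0 c1 c2 c3
  rw [← hz] at l2 l3 c0 c1 c2 c3
  have mk : ∀ i : Fin 4, ∀ c : ℂ, x = c * phi (TG i 0) → y = c * phi (TG i 1) →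
      z = c * phi (TG i 2) → SamePoint (Ts i) v := by
    intro i c e0 e1 e2
    exact same_mk (TG i) v hv c (by rw [← hx, e0]) (by rw [← hy, e1]) (by rw [← hz, e2])
  fin_cases i
  · have x0 : x = 0 := l0.symm.trans hl
    have hc' := c0.symm.trans hc
    have : (y - z) ^ 2 = 0 := by rw [x0] at hc'; linear_combination -hc'
    have hyz : y = z := sub_eq_zero.1 (pow_eq_zero_iff (two_ne_zero)|>.1 this)
    exact mk 0 y (by simp [TG, x0, GaussianInt.toComplex_def'])
      (by simp [TG, GaussianInt.toComplex_def']) (by simp [TG, hyz, GaussianInt.toComplex_def'])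
  · have y0 : y = 0 := l1.symm.trans hl
    have hc' := c1.symm.trans hc
    have : ((1 + Complex.I) * x - Complex.I * z) ^ 2 = 0 := by
      rw [y0] at hc'
      linear_combination -hc' + (x ^ 2 - 2 * x * z + z ^ 2) * Complex.I_sq
    have h1 : (1 + Complex.I) * x - Complex.I * z = 0 := pow_eq_zero_iff (two_ne_zero)|>.1 this
    have hzx : z = (1 - Complex.I) * x := by
      linear_combination Complex.I * h1 + (z - x) * Complex.I_sq
    refine mk 1 (- Complex.I * x) ?_ ?_ ?_
    · simp [TG, GaussianInt.toComplex_def']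
      linear_combination x * Complex.I_sq
    · simp [TG, y0, GaussianInt.toComplex_def']
    · simp [TG, GaussianInt.toComplex_def']
      linear_combination hzx + x * Complex.I_sq
  · have z0 : z = 0 := l2.symm.trans hl
    have hc' := c2.symm.trans hc
    have : (y - (1 + Complex.I) * x) ^ 2 = 0 := by
      rw [z0] at hc'
      linear_combination hc' + x ^ 2 * Complex.I_sq
    have h1 : y - (1 + Complex.I) * x = 0 := pow_eq_zero_iff (two_ne_zero)|>.1 this
    have hyx : y = (1 + Complex.I) * x := by linear_combination h1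
    refine mk 2 x ?_ ?_ ?_
    · simp [TG, GaussianInt.toComplex_def']
    · simp [TG, GaussianInt.toComplex_def']
      linear_combination hyx
    · simp [TG, z0, GaussianInt.toComplex_def']
  · have w0 : - x - y - z = 0 := l3.symm.trans hl
    have hc' := c3.symm.trans hc
    have hz' : z = - x - y := by linear_combination -w0
    have : (2 * y + (1 + 2 * Complex.I) * x) ^ 2 = 0 := by
      rw [hz'] at hc'
      linear_combination hc' + 4 * x ^ 2 * Complex.I_sq
    have h1 : 2 * y + (1 + 2 * Complex.I) * x = 0 := pow_eq_zero_iff (two_ne_zero)|>.1 this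
    have hyx : y = - (1 + 2 * Complex.I) / 2 * x := by linear_combination h1 / 2
    refine mk 3 (- x / 2) ?_ ?_ ?_
    · simp [TG, GaussianInt.toComplex_def']
    · simp [TG, GaussianInt.toComplex_def']
      linear_combination hyx
    · simp [TG, GaussianInt.toComplex_def']
      linear_combination hz' - hyx

theorem phi_eq_zero (z : GaussianInt) : phi z = 0 ↔ z = 0 :=
  ⟨fun h => phi_inj (by rw [h, map_zero]), fun h => by rw [h, map_zero]⟩

theorem restrict_quad (q : Fin 6 → ℂ) (v w : Fin 3 → ℂ) :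
    restrict (quad q) v w = Polynomial.C (eval v (quad q)) +
      Polynomial.C (grad (quad q) v 0 * w 0 + grad (quad q) v 1 * w 1 + grad (quad q) v 2 * w 2) *
        Polynomial.X + Polynomial.C (eval w (quad q)) * Polynomial.X ^ 2 := by
  have h2 : (Polynomial.C (2 : ℂ)) = 2 := map_ofNat Polynomial.C 2
  rw [eval_quad, eval_quad, grad_quad]
  simp [restrict, quad, h2]
  ring

theorem grad_propG : ∀ i : Fin 4, ∀ s t : Fin 3,
    grG (Sum.inr i) (TG i) t * lineG i s = grG (Sum.inr i) (TG i) s * lineG i t := by decide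

theorem exists_lineG : ∀ i : Fin 4, ∃ s, lineG i s ≠ 0 := by decide

theorem isA3 (i : Fin 4) : IsA3 (Ls i) (Cs i) (Ts i) := by
  have hT : ∀ k, eval (Ts i) (comp Ls Cs k) = 0 ↔ (k = Sum.inl i ∨ k = Sum.inr i) := by
    intro k
    show eval (fun t => phi (TG i t)) (comp Ls Cs k) = 0 ↔ _
    rw [ev_phi, phi_eq_zero]
    exact T_incG i k
  have hTne : Ts i ≠ 0 := by
    intro h
    have h1 : ∀ i, TG i ≠ 0 := by decide
    apply h1 i
    funext t
    have := congrFun h t
    exact (phi_eq_zero _).1 this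
  refine ⟨(hT (Sum.inl i)).2 (Or.inl rfl), (hT (Sum.inr i)).2 (Or.inr rfl), smooth_line i _,
    smooth_conic i _ hTne, ?_⟩
  intro w hw hwv
  have hw0 : w ≠ 0 := fun h => hwv 0 (by rw [h, zero_smul])
  have h0 : eval (Ts i) (Cs i) = 0 := (hT (Sum.inr i)).2 (Or.inr rfl)
  have hg : ∀ t, grad (Cs i) (Ts i) t = phi (grG (Sum.inr i) (TG i) t) := by
    intro t
    exact congrFun (gr_phi (Sum.inr i) (TG i)) t
  have h1 : grad (Cs i) (Ts i) 0 * w 0 + grad (Cs i) (Ts i) 1 * w 1 +
      grad (Cs i) (Ts i) 2 * w 2 = 0 := by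
    obtain ⟨s, hs⟩ := exists_lineG i
    have hs' : phi (lineG i s) ≠ 0 := fun h => hs ((phi_eq_zero _).1 h)
    rw [Ls, eval_lin] at hw
    have hp : ∀ t, phi (grG (Sum.inr i) (TG i) t) * phi (lineG i s) =
        phi (grG (Sum.inr i) (TG i) s) * phi (lineG i t) := by
      intro t
      rw [← map_mul, ← map_mul, grad_propG]
    have hz : phi (lineG i s) * (grad (Cs i) (Ts i) 0 * w 0 + grad (Cs i) (Ts i) 1 * w 1 +
      grad (Cs i) (Ts i) 2 * w 2) = 0 := by
      rw [hg, hg, hg]
      linear_combination w 0 * hp 0 + w 1 * hp 1 + w 2 * hp 2 +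
        phi (grG (Sum.inr i) (TG i) s) * hw
    exact (mul_eq_zero.1 hz).resolve_left hs'
  have h2 : eval w (Cs i) ≠ 0 := by
    intro h3
    obtain ⟨c, -, hc⟩ := tangency w hw0 i hw h3
    exact hwv c hc
  have h3 : restrict (Cs i) (Ts i) w = Polynomial.C (eval w (Cs i)) * Polynomial.X ^ 2 := by
    rw [Cs, restrict_quad]
    rw [Cs] at h0 h1
    rw [h0, h1]
    simp
  rw [h3, Polynomial.rootMultiplicity_mul (mul_ne_zero (Polynomial.C_ne_zero.2 h2)
    (pow_ne_zero _ Polynomial.X_ne_zero)), Polynomial.rootMultiplicity_C,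
    show (Polynomial.X : Polynomial ℂ) ^ 2 = (Polynomial.X - Polynomial.C 0) ^ 2 by simp,
    Polynomial.rootMultiplicity_X_sub_C_pow]

theorem eval_smul_zero (k : Fin 4 ⊕ Fin 4) (v : Fin 3 → ℂ) (c : ℂ)
    (h : eval v (comp Ls Cs k) = 0) : eval (c • v) (comp Ls Cs k) = 0 := by
  rcases k with i | i
  · simp only [comp, Sum.elim_inl, Ls, eval_lin, Pi.smul_apply, smul_eq_mul] at h ⊢
    linear_combination c * h
  · simp only [comp, Sum.elim_inr, Cs, eval_quad, Pi.smul_apply, smul_eq_mul] at h ⊢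
    linear_combination c ^ 2 * h

theorem grad_ne (k : Fin 4 ⊕ Fin 4) (v : Fin 3 → ℂ) (hv : v ≠ 0) :
    grad (comp Ls Cs k) v ≠ 0 := by
  rcases k with i | i
  · exact smooth_line i v
  · exact smooth_conic i v hv

theorem M_rel (v : Fin 3 → ℂ) (M : Fin 4 → ℂ)
    (hM : ∀ k, M k = eval v (comp Ls Cs (Sum.inl k)) * eval v (comp Ls Cs (Sum.inr k))) :
    M 2 = M 1 - 2 * Complex.I * M 0 ∧ M 3 = 4 * M 1 + (3 - 4 * Complex.I) * M 0 := by
  obtain ⟨l0, l1, l2, l3, c0, c1, c2, c3⟩ := vals v
  rw [hM 0, hM 1, hM 2, hM 3, l0, l1, l2, l3, c0, c1, c2, c3]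
  constructor <;> ring

/-- **Realization of `W`**: there is a curve in the complex projective plane whose weak combinatorial
type is `W`. -/
theorem result : ∃ (f : Form) (L C : Fin 4 → Form) (P : Fin 9 → Fin 3 → ℂ)
    (T : Fin 4 → Fin 3 → ℂ), HasTypeW f L C P T := by
  refine ⟨∏ k, comp Ls Cs k, Ls, Cs, Ps, Ts, ?_⟩
  have hPinc : ∀ j k, eval (Ps j) (comp Ls Cs k) = 0 ↔ k ∈ inc j := by
    intro j k
    show eval (fun t => phi (PG j t)) (comp Ls Cs k) = 0 ↔ _
    rw [ev_phi, phi_eq_zero]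
    exact P_incG j k
  have hTinc : ∀ i k, eval (Ts i) (comp Ls Cs k) = 0 ↔ (k = Sum.inl i ∨ k = Sum.inr i) := by
    intro i k
    show eval (fun t => phi (TG i t)) (comp Ls Cs k) = 0 ↔ _
    rw [ev_phi, phi_eq_zero]
    exact T_incG i k
  refine
    { lines := fun i => ⟨lin_homogeneous _, fun h => smooth_line i 0 (by
        rw [h]; funext t; simp [grad])⟩
      conics := fun i => ⟨quad_homogeneous _, fun v hv _ => smooth_conic i v hv⟩
      distinct := ?_
      eq_prod := rfl
      P_ne := ?_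
      T_ne := ?_
      P_inj := ?_
      T_inj := ?_
      P_T := fun j i => not_same _ _ (P_TG j i)
      sing := ?_
      P_inc := hPinc
      P_ord := ?_
      T_inc := hTinc
      T_A3 := isA3 }
  · intro k l hkl h
    have h1 : ∀ k l : Fin 4 ⊕ Fin 4, k ≠ l → ∃ j, k ∈ inc j ∧ l ∉ inc j := by decide
    obtain ⟨j, hk, hl⟩ := h1 k l hkl
    apply hl
    rw [← hPinc j l]
    obtain ⟨r, hr⟩ := h.dvd
    rw [hr, map_mul, (hPinc j k).2 hk, zero_mul]
  · intro j h
    have h1 : ∀ j, PG j ≠ 0 := by decide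
    apply h1 j
    funext t
    exact (phi_eq_zero _).1 (congrFun h t)
  · intro i h
    have h1 : ∀ i, TG i ≠ 0 := by decide
    apply h1 i
    funext t
    exact (phi_eq_zero _).1 (congrFun h t)
  · intro j j' h
    by_contra hne
    exact not_same _ _ (P_injG j j' hne) h
  · intro j j' h
    by_contra hne
    exact not_same _ _ (T_injG j j' hne) h
  · intro v hv
    rw [sing_iff (comp Ls Cs) v (fun k _ => grad_ne k v hv)]
    constructor
    · rintro ⟨k, l, hkl, hk, hl⟩
      obtain ⟨M, hM⟩ : ∃ M : Fin 4 → ℂ, ∀ k, M k =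
        eval v (comp Ls Cs (Sum.inl k)) * eval v (comp Ls Cs (Sum.inr k)) := ⟨_, fun k => rfl⟩
      obtain ⟨r2, r3⟩ := M_rel v M hM
      have fin : ∀ i j : Fin 4, i ≠ j → M i = 0 → M j = 0 → ∃ j, SamePoint (Ps j) v := by
        intro i j hij hi hj
        exact base_points v hv fun k => by rw [← hM k]; exact members M r2 r3 i j hij hi hj k
      rcases k with i | i <;> rcases l with j | j
      · exact Or.inl (fin i j (fun h => hkl (by rw [h])) (by rw [hM, hk, zero_mul])
          (by rw [hM, hl, zero_mul]))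
      · by_cases hij : i = j
        · subst hij
          exact Or.inr ⟨i, tangency v hv i hk hl⟩
        · exact Or.inl (fin i j hij (by rw [hM, hk, zero_mul]) (by rw [hM, hl, mul_zero]))
      · by_cases hij : i = j
        · subst hij
          exact Or.inr ⟨i, tangency v hv i hl hk⟩
        · exact Or.inl (fin i j hij (by rw [hM, hk, mul_zero]) (by rw [hM, hl, zero_mul]))
      · exact Or.inl (fin i j (fun h => hkl (by rw [h])) (by rw [hM, hk, mul_zero])
          (by rw [hM, hl, mul_zero]))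
    · rintro (⟨j, c, -, rfl⟩ | ⟨i, c, -, rfl⟩)
      · have h1 : ∀ j, ∃ k ∈ inc j, ∃ l ∈ inc j, k ≠ l := by decide
        obtain ⟨k, hk, l, hl, hkl⟩ := h1 j
        exact ⟨k, l, hkl, eval_smul_zero k _ c ((hPinc j k).2 hk),
          eval_smul_zero l _ c ((hPinc j l).2 hl)⟩
      · exact ⟨Sum.inl i, Sum.inr i, Sum.inl_ne_inr,
          eval_smul_zero _ _ c ((hTinc i _).2 (Or.inl rfl)),
          eval_smul_zero _ _ c ((hTinc i _).2 (Or.inr rfl))⟩
  · intro j k hk l hl hkl
    rw [LinearIndependent.pair_iff]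
    intro s t hst
    change s • grad (comp Ls Cs k) (fun t => phi (PG j t)) +
      t • grad (comp Ls Cs l) (fun t => phi (PG j t)) = 0 at hst
    rw [gr_phi, gr_phi] at hst
    exact ind_phi _ _ (P_ordG j k hk l hl hkl) s t (fun i => by
      have := congrFun hst i
      simpa using this)

end Pool.Agent.Results.MP_0c03d4_ag.RealizationOfW
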